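import Pool.Agent.Helper26.LU.Goals

/-!
# Project LU (MP_db6300_gt), packet G2: the centre is interior
-/

set_option autoImplicit false

namespace Pool.Agent.Helper94.LU

open Pool.Agent.Helper26.LU
open Matrix

lemma frame_rot {R : M3} (h : R ∈ SO3) (x : V) :
    ∑ j, (x ⬝ᵥ (R *ᵥ e j)) • (R *ᵥ e j) = (4 / 3 : ℝ) • x := by
  have h1 : R *ᵥ (Rᵀ *ᵥ x) = x := by
    rw [Matrix.mulVec_mulVec, ((mem_SO3 R).1 h).1, Matrix.one_mulVec]
  have h2 : ∀ j, x ⬝ᵥ (R *ᵥ e j) = (Rᵀ *ᵥ x) ⬝ᵥ e j := by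
    intro j
    rw [← dot_mulVec h (Rᵀ *ᵥ x) (e j), h1]
  calc ∑ j, (x ⬝ᵥ (R *ᵥ e j)) • (R *ᵥ e j) = ∑ j, R *ᵥ (((Rᵀ *ᵥ x) ⬝ᵥ e j) • e j) := by
        apply Finset.sum_congr rfl
        intro j _
        rw [h2, Matrix.mulVec_smul]
    _ = R *ᵥ (∑ j, ((Rᵀ *ᵥ x) ⬝ᵥ e j) • e j) := by
        rw [Matrix.mulVec_sum]
    _ = (4 / 3 : ℝ) • x := by
        rw [e_frame, Matrix.mulVec_smul, h1]

lemma sum_rot (R : M3) : ∑ j, R *ᵥ e j = 0 := by
  rw [← Matrix.mulVec_sum, e_sum, Matrix.mulVec_zero]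

theorem gG2 : G_G2 := by
  intro K hK hKc c t R hR hfr hbd
  set v : Fin 4 → V := fun j => R *ᵥ e j with hv
  have hv1 : ∀ j, v j ⬝ᵥ v j = 1 := by
    intro j
    rw [hv]
    simp only
    rw [dot_mulVec hR, e_dot, if_pos rfl]
  have hvn : ∀ j, nrm (v j) = 1 := fun j => nrm_sph (hv1 j)
  have hsum : ∑ j, v j = 0 := sum_rot R
  set t' : V := t - c with ht'
  have hf : ∀ j, |2 * (v j ⬝ᵥ t') + t' ⬝ᵥ t'| ≤ 1 / 16 := by
    intro j
    have h1 := hbd _ (hfr j)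
    have e1 : R *ᵥ e j + t - c = v j + t' := by
      rw [ht', hv]
      simp only
      abel
    rw [e1, dotProduct_add, add_dotProduct, add_dotProduct, hv1, dotProduct_comm t' (v j)] at h1
    have e2 : 1 + v j ⬝ᵥ t' + (v j ⬝ᵥ t' + t' ⬝ᵥ t') - 1 = 2 * (v j ⬝ᵥ t') + t' ⬝ᵥ t' := by ring
    rw [e2] at h1
    exact h1
  -- the translation is small
  have hframe : ∑ j, (v j ⬝ᵥ t') * (v j ⬝ᵥ t') = 4 / 3 * (t' ⬝ᵥ t') := by
    have h1 : (∑ j, (t' ⬝ᵥ (R *ᵥ e j)) • (R *ᵥ e j)) ⬝ᵥ t' = ((4 / 3 : ℝ) • t') ⬝ᵥ t' := by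
      rw [frame_rot hR t']
    rw [smul_dotProduct, smul_eq_mul] at h1
    rw [← h1, sum_dotProduct]
    apply Finset.sum_congr rfl
    intro j _
    rw [smul_dotProduct, smul_eq_mul, dotProduct_comm t' (R *ᵥ e j)]
  have hsum2 : ∑ j, v j ⬝ᵥ t' = 0 := by
    rw [← sum_dotProduct, hsum, zero_dotProduct]
  have hn : nrm t' ≤ 3 / 32 := by
    have h1 : ∑ j, (2 * (v j ⬝ᵥ t') + t' ⬝ᵥ t') * (v j ⬝ᵥ t') = 8 / 3 * (t' ⬝ᵥ t') := by
      calc ∑ j, (2 * (v j ⬝ᵥ t') + t' ⬝ᵥ t') * (v j ⬝ᵥ t')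
          = 2 * ∑ j, (v j ⬝ᵥ t') * (v j ⬝ᵥ t') + (t' ⬝ᵥ t') * ∑ j, v j ⬝ᵥ t' := by
            rw [Finset.mul_sum, Finset.mul_sum, ← Finset.sum_add_distrib]
            apply Finset.sum_congr rfl
            intro j _
            ring
        _ = 8 / 3 * (t' ⬝ᵥ t') := by
            rw [hframe, hsum2]
            ring
    have h2 : ∑ j, (2 * (v j ⬝ᵥ t') + t' ⬝ᵥ t') * (v j ⬝ᵥ t') ≤
        ∑ _j : Fin 4, (1 / 16 : ℝ) * nrm t' := by
      apply Finset.sum_le_sum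
      intro j _
      have h3 : |v j ⬝ᵥ t'| ≤ nrm t' := by
        have := dot_le (v j) t'
        rw [hvn, one_mul] at this
        exact this
      calc (2 * (v j ⬝ᵥ t') + t' ⬝ᵥ t') * (v j ⬝ᵥ t')
          ≤ |(2 * (v j ⬝ᵥ t') + t' ⬝ᵥ t') * (v j ⬝ᵥ t')| := le_abs_self _
        _ = |2 * (v j ⬝ᵥ t') + t' ⬝ᵥ t'| * |v j ⬝ᵥ t'| := abs_mul _ _
        _ ≤ (1 / 16) * nrm t' := mul_le_mul (hf j) h3 (abs_nonneg _) (by norm_num)
    rw [h1, Finset.sum_const, Finset.card_univ, Fintype.card_fin, nsmul_eq_mul, ← nrm_sq] at h2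
    push_cast at h2
    have h0 := nrm_nonneg t'
    by_contra hcon
    push Not at hcon
    nlinarith
  -- the ball
  rw [mem_interior_iff_mem_nhds, Metric.mem_nhds_iff]
  refine ⟨1 / 16, by norm_num, ?_⟩
  intro x hx
  rw [Metric.mem_ball, dist_eq_norm] at hx
  set y : V := x - c with hy
  have hyn : nrm y ≤ 1 / 8 := by
    have := nrm_le_norm y
    linarith
  set z : V := y - t' with hz
  have hzn : nrm z ≤ 7 / 32 := by
    have h1 := nrm_add_le y (-t')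
    rw [nrm_neg, ← sub_eq_add_neg] at h1
    linarith
  set lam : Fin 4 → ℝ := fun j => 1 / 4 + 3 / 4 * (z ⬝ᵥ v j) with hlam
  have hl0 : ∀ j, 0 ≤ lam j := by
    intro j
    have h1 := dot_le z (v j)
    rw [hvn, mul_one] at h1
    have h2 := (abs_le.mp h1).1
    rw [hlam]
    simp only
    linarith
  have hl1 : ∑ j, lam j = 1 := by
    rw [hlam]
    simp only
    rw [Finset.sum_add_distrib, ← Finset.mul_sum, ← dotProduct_sum, hsum, dotProduct_zero,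
      Finset.sum_const, Finset.card_univ, Fintype.card_fin, nsmul_eq_mul]
    norm_num
  have hK2 : ∀ j, v j + t ∈ K := fun j => hKc.isClosed.frontier_subset (hfr j)
  have hmem := hK.sum_mem (t := Finset.univ) (w := lam) (z := fun j => v j + t)
    (fun j _ => hl0 j) hl1 (fun j _ => hK2 j)
  have hxe : ∑ j, lam j • (v j + t) = x := by
    have e1 : ∑ j, lam j • (v j + t) = ∑ j, lam j • v j + (∑ j, lam j) • t := by
      rw [Finset.sum_smul, ← Finset.sum_add_distrib]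
      apply Finset.sum_congr rfl
      intro j _
      rw [smul_add]
    have e2 : ∑ j, lam j • v j = z := by
      have e3 : ∑ j, lam j • v j = (1 / 4 : ℝ) • ∑ j, v j +
          (3 / 4 : ℝ) • ∑ j, (z ⬝ᵥ v j) • v j := by
        rw [Finset.smul_sum, Finset.smul_sum, ← Finset.sum_add_distrib]
        apply Finset.sum_congr rfl
        intro j _
        rw [hlam]
        simp only
        rw [add_smul, smul_smul]
      have e4 : ∑ j, (z ⬝ᵥ v j) • v j = (4 / 3 : ℝ) • z := frame_rot hR z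
      rw [e3, hsum, e4, smul_zero, zero_add, smul_smul]
      norm_num
    rw [e1, e2, hl1, one_smul, hz, hy, ht']
    abel
  rw [hxe] at hmem
  exact hmem

end Pool.Agent.Helper94.LU
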